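import Pool.Agent.H606.OS.Stm

open MeasureTheory Filter Topology Finset
open Pool.Agent.H606.OS

namespace Pool.Agent.H51.OS.W4

theorem int2 {f g : ℝ → ℝ} (hf : Integrable f) (hg : Integrable g) (a : ℝ) :
    ∫ t, (f t + a * g t) = (∫ t, f t) + a * ∫ t, g t := by
  have h := integral_add hf (hg.const_mul a)
  rw [integral_const_mul] at h
  exact h

theorem add2 {f g : ℝ → ℝ} (hf : Integrable f) (hg : Integrable g) (a : ℝ) :
    Integrable fun t => f t + a * g t :=
  hf.add (hg.const_mul a)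

/-- Cauchy-Schwarz. -/
theorem cs {f g : ℝ → ℝ} (hff : Integrable fun t => f t * f t) (hfg : Integrable fun t => f t * g t)
    (hgg : Integrable fun t => g t * g t) :
    |∫ t, f t * g t| ≤ √(∫ t, f t * f t) * √(∫ t, g t * g t) := by
  have h0 : 0 ≤ ∫ t, f t * f t := integral_nonneg fun t => mul_self_nonneg _
  have h0' : 0 ≤ ∫ t, g t * g t := integral_nonneg fun t => mul_self_nonneg _
  have hq : ∀ s : ℝ, 0 ≤ (∫ t, g t * g t) * (s * s) + (2 * ∫ t, f t * g t) * s +
      ∫ t, f t * f t := by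
    intro s
    have h1 : 0 ≤ ∫ t, (f t + s * g t) * (f t + s * g t) := integral_nonneg fun t => mul_self_nonneg _
    have h2 : ∀ t, (f t + s * g t) * (f t + s * g t) =
        (f t * f t + (2 * s) * (f t * g t)) + (s * s) * (g t * g t) := fun t => by ring
    have h3 := int2 (add2 hff hfg (2 * s)) hgg (s * s)
    have h4 := int2 hff hfg (2 * s)
    rw [integral_congr_ae (Eventually.of_forall h2), h3, h4] at h1
    linarith
  have h3 := discrim_le_zero hq
  unfold discrim at h3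
  have h4 : (∫ t, f t * g t) ^ 2 ≤ (∫ t, f t * f t) * ∫ t, g t * g t := by nlinarith
  rw [← Real.sqrt_mul h0]
  exact Real.abs_le_sqrt h4

theorem t_W4 (hNICE : S_NICE) (hW1 : S_W1) (hW2 : S_W2) (hW3 : S_W3) : S_W4 := by
  intro C0 hC0
  obtain ⟨-, hmul, hadd, hsmul, hint, hfields⟩ := hNICE
  obtain ⟨C1, hC1, h1⟩ := hW1 C0 hC0
  obtain ⟨C3, hC3, h3⟩ := hW3 C0 hC0
  refine ⟨2 * √C3 + 2 * √(C3 * C1) + 2 * √C1 + 4 * C1 + 1, by positivity, ?_⟩
  intro D b hb hb12 η hη
  have hms := D.ms b hb hb12 η hη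
  have h2 := hW2 C0 hC0 D b hb hb12 (b * η / 4) (by positivity)
  filter_upwards [hms, h1 D b hb hb12, h2, h3 D b hb hb12, eventually_gt_atTop (1 : ℝ)] with
    T hT1 hT2 hT3 hT4 hT5
  obtain ⟨hQ, hR⟩ := hT2
  have hT3' := hT3.1
  obtain ⟨hA, hC, hQn⟩ := hfields (zw D.ZG T) D.m T b hT5 hb
  -- names
  obtain ⟨A, hAd⟩ : ∃ A : ℝ → ℝ, A = AF (zw D.ZG T) D.m T b := ⟨_, rfl⟩
  obtain ⟨C, hCd⟩ : ∃ C : ℝ → ℝ, C = CF (zw D.ZG T) D.m T b := ⟨_, rfl⟩
  obtain ⟨Q, hQd⟩ : ∃ Q : ℝ → ℝ, Q = QF (zw D.ZG T) D.m T b := ⟨_, rfl⟩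
  obtain ⟨c, hcd⟩ : ∃ c : ℝ → ℝ, c = (Set.Ioc T (3 * T / 2)).indicator (fun _ => 1 / b) := ⟨_, rfl⟩
  rw [← hAd] at hA
  rw [← hCd] at hC
  rw [← hQd] at hQn
  rw [← hAd, ← hQd]
  rw [← hCd] at hT1
  rw [← hQd] at hQ hT3'
  rw [← hCd, ← hAd, ← hQd] at hR
  rw [← hCd, ← hcd] at hT4
  obtain ⟨R, hRd⟩ : ∃ R : ℝ → ℝ, R = fun t => C t - A t - Q t := ⟨_, rfl⟩
  have hRn : Nice R := by
    have h5 := hadd _ _ (hadd _ _ hC (hsmul _ (-1) hA)) (hsmul _ (-1) hQn)
    rw [hRd]
    have h6 : (fun t => C t - A t - Q t) = fun t => C t + -1 * A t + -1 * Q t := by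
      funext t
      ring
    rw [h6]
    exact h5
  have hT0 : 0 < T := by linarith
  have hSm : MeasurableSet (Set.Ioc T (3 * T / 2)) := measurableSet_Ioc
  -- products with `c`
  have hcf : ∀ f : ℝ → ℝ, (fun t => c t * f t) =
      (Set.Ioc T (3 * T / 2)).indicator (fun t => 1 / b * f t) := by
    intro f
    funext t
    rw [hcd]
    by_cases ht : t ∈ Set.Ioc T (3 * T / 2)
    · rw [Set.indicator_of_mem ht, Set.indicator_of_mem ht]
    · rw [Set.indicator_of_notMem ht, Set.indicator_of_notMem ht, zero_mul]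
  have hci : ∀ f : ℝ → ℝ, Integrable f → Integrable fun t => c t * f t := by
    intro f hf
    rw [hcf]
    exact (hf.const_mul _).indicator hSm
  have hcint : ∀ f : ℝ → ℝ, ∫ t, c t * f t = 1 / b * ∫ t in T..(3 * T / 2), f t := by
    intro f
    rw [hcf, integral_indicator hSm, intervalIntegral.integral_of_le (by linarith),
      integral_const_mul]
  have hcc : Integrable fun t => c t * c t := by
    rw [hcf]
    rw [integrable_indicator_iff hSm]
    have h5 : Set.EqOn (fun t => 1 / b * c t) (fun _ => 1 / b * (1 / b)) (Set.Ioc T (3 * T / 2)) := by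
      intro t ht
      simp only [hcd]
      rw [Set.indicator_of_mem ht]
    rw [integrableOn_congr_fun h5 hSm]
    exact integrableOn_const (by simp)
  have hccv : ∫ t, c t * c t = T / (2 * b ^ 2) := by
    rw [hcf, integral_indicator hSm]
    have h5 : ∫ t in Set.Ioc T (3 * T / 2), 1 / b * c t =
        ∫ _t in Set.Ioc T (3 * T / 2), 1 / b * (1 / b) := by
      refine setIntegral_congr_fun hSm fun t ht => ?_
      simp only [hcd]
      rw [Set.indicator_of_mem ht]
    rw [h5, setIntegral_const, Measure.real, Real.volume_Ioc,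
      ENNReal.toReal_ofReal (by linarith), smul_eq_mul]
    field_simp
    ring
  -- integrability of the products
  have iCC := hint _ (hmul _ _ hC hC)
  have iCQ := hint _ (hmul _ _ hC hQn)
  have iCR := hint _ (hmul _ _ hC hRn)
  have iQQ := hint _ (hmul _ _ hQn hQn)
  have iRR := hint _ (hmul _ _ hRn hRn)
  have iQR := hint _ (hmul _ _ hQn hRn)
  have icC := hci _ (hint _ hC)
  have icQ := hci _ (hint _ hQn)
  have icR := hci _ (hint _ hRn)
  have iDD : Integrable fun t => (C t - c t) * (C t - c t) := by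
    have h5 : (fun t => (C t - c t) * (C t - c t)) =
        fun t => C t * C t + (-2) * (c t * C t) + c t * c t := by
      funext t
      ring
    rw [h5]
    exact (iCC.add (icC.const_mul _)).add hcc
  have iDQ : Integrable fun t => (C t - c t) * Q t := by
    have h5 : (fun t => (C t - c t) * Q t) = fun t => C t * Q t - c t * Q t := by
      funext t
      ring
    rw [h5]
    exact iCQ.sub icQ
  have iDR : Integrable fun t => (C t - c t) * R t := by
    have h5 : (fun t => (C t - c t) * R t) = fun t => C t * R t - c t * R t := by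
      funext t
      ring
    rw [h5]
    exact iCR.sub icR
  -- the expansion
  have hexp : ∫ t, A t ^ 2 = (((((((∫ t, C t * C t) + (-2) * ∫ t, (C t - c t) * Q t) +
      (-2) * ∫ t, (C t - c t) * R t) + (-2) * ∫ t, c t * Q t) + (-2) * ∫ t, c t * R t) +
      1 * ∫ t, Q t * Q t) + 2 * ∫ t, Q t * R t) + 1 * ∫ t, R t * R t := by
    have e : ∀ t, A t ^ 2 = ((((((C t * C t + (-2) * ((C t - c t) * Q t)) +
        (-2) * ((C t - c t) * R t)) + (-2) * (c t * Q t)) + (-2) * (c t * R t)) +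
        1 * (Q t * Q t)) + 2 * (Q t * R t)) + 1 * (R t * R t) := by
      intro t
      have e1 : A t = C t - Q t - R t := by
        rw [hRd]
        ring
      rw [e1]
      ring
    have i1 := add2 iCC iDQ (-2)
    have i2 := add2 i1 iDR (-2)
    have i3 := add2 i2 icQ (-2)
    have i4 := add2 i3 icR (-2)
    have i5 := add2 i4 iQQ 1
    have i6 := add2 i5 iQR 2
    have j1 := int2 iCC iDQ (-2)
    have j2 := int2 i1 iDR (-2)
    have j3 := int2 i2 icQ (-2)
    have j4 := int2 i3 icR (-2)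
    have j5 := int2 i4 iQQ 1
    have j6 := int2 i5 iQR 2
    have j7 := int2 i6 iRR 1
    rw [j1] at j2
    rw [j2] at j3
    rw [j3] at j4
    rw [j4] at j5
    rw [j5] at j6
    rw [j6] at j7
    exact (integral_congr_ae (Eventually.of_forall e)).trans j7
  -- squares
  have sCC : ∫ t, C t ^ 2 = ∫ t, C t * C t := integral_congr_ae (Eventually.of_forall fun t => pow_two _)
  have sQQ : ∫ t, Q t ^ 2 = ∫ t, Q t * Q t := integral_congr_ae (Eventually.of_forall fun t => pow_two _)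
  have sRR : ∫ t, (C t - A t - Q t) ^ 2 = ∫ t, R t * R t :=
    integral_congr_ae (Eventually.of_forall fun t => by rw [hRd]; exact pow_two _)
  have sDD : ∫ t, (C t - c t) ^ 2 = ∫ t, (C t - c t) * (C t - c t) :=
    integral_congr_ae (Eventually.of_forall fun t => pow_two _)
  rw [sCC] at hT1
  rw [sQQ] at hQ
  rw [sRR] at hR
  rw [sDD] at hT4
  rw [sQQ, hexp]
  -- bounds
  have b2 : b ^ 6 ≤ b ^ 2 := pow_le_pow_of_le_one hb.le (by linarith) (by norm_num)
  have hb3 : b ^ 3 ≤ b ^ 2 := pow_le_pow_of_le_one hb.le (by linarith) (by norm_num)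
  have hRR' : ∫ t, R t * R t ≤ C1 * b ^ 2 * T :=
    hR.trans (mul_le_mul_of_nonneg_right (mul_le_mul_of_nonneg_left b2 hC1.le) hT0.le)
  have x1 : |∫ t, (C t - c t) * Q t| ≤ √C3 * √T * √(∫ t, Q t * Q t) := by
    refine (cs iDD iDQ iQQ).trans (mul_le_mul_of_nonneg_right ?_ (Real.sqrt_nonneg _))
    rw [← Real.sqrt_mul hC3.le]
    exact Real.sqrt_le_sqrt hT4
  have x2 : |∫ t, (C t - c t) * R t| ≤ √(C3 * C1) * (b ^ 2 * T) := by
    refine (cs iDD iDR iRR).trans ?_
    have h5 : √(∫ t, (C t - c t) * (C t - c t)) ≤ √(C3 * T) := Real.sqrt_le_sqrt hT4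
    have h6 : √(∫ t, R t * R t) ≤ √(C1 * b ^ 6 * T) := Real.sqrt_le_sqrt hR
    calc _ ≤ √(C3 * T) * √(C1 * b ^ 6 * T) :=
          mul_le_mul h5 h6 (Real.sqrt_nonneg _) (Real.sqrt_nonneg _)
      _ = √(C3 * C1 * (b ^ 3 * T) ^ 2) := by
          rw [← Real.sqrt_mul (by positivity)]
          congr 1
          ring
      _ = √(C3 * C1) * (b ^ 3 * T) := by
          rw [Real.sqrt_mul (by positivity), Real.sqrt_sq (by positivity)]
      _ ≤ _ := mul_le_mul_of_nonneg_left (mul_le_mul_of_nonneg_right hb3 hT0.le)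
          (Real.sqrt_nonneg _)
  have x3 : |∫ t, c t * Q t| ≤ η * T / 4 := by
    rw [hcint, abs_mul, abs_of_pos (by positivity)]
    calc 1 / b * |∫ t in T..(3 * T / 2), Q t| ≤ 1 / b * (b * η / 4 * T) :=
          mul_le_mul_of_nonneg_left hT3' (by positivity)
      _ = _ := by field_simp
  have x4 : |∫ t, c t * R t| ≤ √C1 * (b ^ 2 * T) := by
    refine (cs hcc icR iRR).trans ?_
    rw [hccv]
    have h6 : √(∫ t, R t * R t) ≤ √(C1 * b ^ 6 * T) := Real.sqrt_le_sqrt hR
    calc _ ≤ √(T / (2 * b ^ 2)) * √(C1 * b ^ 6 * T) :=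
          mul_le_mul_of_nonneg_left h6 (Real.sqrt_nonneg _)
      _ = √(C1 * (b ^ 2 * T) ^ 2 / 2) := by
          rw [← Real.sqrt_mul (by positivity)]
          congr 1
          field_simp
      _ ≤ √(C1 * (b ^ 2 * T) ^ 2) := Real.sqrt_le_sqrt (by
          have : 0 ≤ C1 * (b ^ 2 * T) ^ 2 := by positivity
          linarith)
      _ = _ := by rw [Real.sqrt_mul hC1.le, Real.sqrt_sq (by positivity)]
  have hQ0 : 0 ≤ ∫ t, Q t * Q t := integral_nonneg fun t => mul_self_nonneg _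
  have hR0 : 0 ≤ ∫ t, R t * R t := integral_nonneg fun t => mul_self_nonneg _
  have x6 : 2 * ∫ t, Q t * R t ≤ (∫ t, Q t * Q t) + ∫ t, R t * R t := by
    have h5 := (le_abs_self _).trans (cs iQQ iQR iRR)
    have h6 := Real.sq_sqrt hQ0
    have h7 := Real.sq_sqrt hR0
    nlinarith [sq_nonneg (√(∫ t, Q t * Q t) - √(∫ t, R t * R t))]
  have y1 := (abs_le.mp x1).1
  have y2 := (abs_le.mp x2).1
  have y3 := (abs_le.mp x3).1
  have y4 := (abs_le.mp x4).1
  have z1 : (2 * √C3 + 2 * √(C3 * C1) + 2 * √C1 + 4 * C1 + 1) * √T * √(∫ t, Q t * Q t) ≥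
      2 * (√C3 * √T * √(∫ t, Q t * Q t)) := by
    have h5 : 0 ≤ √T * √(∫ t, Q t * Q t) := by positivity
    have h6 : 0 ≤ √(C3 * C1) := Real.sqrt_nonneg _
    have h7 : 0 ≤ √C1 := Real.sqrt_nonneg _
    nlinarith
  have z2 : (2 * √C3 + 2 * √(C3 * C1) + 2 * √C1 + 4 * C1 + 1) * b ^ 2 * T ≥
      2 * (√(C3 * C1) * (b ^ 2 * T)) + 2 * (√C1 * (b ^ 2 * T)) + 4 * (C1 * b ^ 2 * T) := by
    have h5 : 0 ≤ b ^ 2 * T := by positivity
    have h6 : 0 ≤ √C3 := Real.sqrt_nonneg _
    nlinarith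
  have z3 : (1 / b ^ 2 + 1 / 6 + η) * (T / 2) = (1 / b ^ 2 + 1 / 6) * (T / 2) + η * T / 2 := by ring
  linarith

end Pool.Agent.H51.OS.W4
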